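import Mathlib
import Pool.Agent.W32.CMW.Pois
import Pool.Agent.W192.HK.Parts

/-!
# Poisson summation for ideals of the ring of integers of an imaginary quadratic field
-/

set_option autoImplicit false
set_option maxHeartbeats 1000000

open Complex Real

namespace Pool.Agent.W348.HK

open Pool.Agent.W192.HK
open Pool.Agent.W192.CM (ez)
open Pool.Agent.W975.CM (shear norm_e)
open Pool.Agent.W32.CMW (coefs wF zF wH zH hypF hypH pois2)

/-- the coordinates -/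
theorem exists_e1 {R : Subring ℂ} {ω : ℂ} (h : QR R ω) :
    ∃ e : ℤ × ℤ ≃ R, ∀ p, ((e p : R) : ℂ) = (p.2 : ℂ) + p.1 * ω := by
  have hinj : Function.Injective (fun p : ℤ × ℤ =>
      (⟨(p.2 : ℂ) + p.1 * ω, (h.mem _).2 ⟨p.2, p.1, rfl⟩⟩ : R)) := by
    intro p q hpq
    have h1 : (p.2 : ℂ) + p.1 * ω = (q.2 : ℂ) + q.1 * ω := congrArg Subtype.val hpq
    have h2 := congrArg Complex.im h1
    have h3 := congrArg Complex.re h1
    simp only [Complex.add_im, Complex.intCast_im, Complex.mul_im, Complex.intCast_re, zero_mul,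
      add_zero, zero_add] at h2
    simp only [Complex.add_re, Complex.intCast_re, Complex.mul_re, Complex.intCast_im, zero_mul,
      sub_zero] at h3
    have h4 : (p.1 : ℝ) = q.1 := mul_right_cancel₀ h.im.ne' h2
    rw [h4] at h3
    have h5 : (p.2 : ℝ) = q.2 := by linarith
    exact Prod.ext (by exact_mod_cast h4) (by exact_mod_cast h5)
  have hsurj : Function.Surjective (fun p : ℤ × ℤ =>
      (⟨(p.2 : ℂ) + p.1 * ω, (h.mem _).2 ⟨p.2, p.1, rfl⟩⟩ : R)) := by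
    rintro ⟨z, hz⟩
    obtain ⟨x, y, hxy⟩ := (h.mem z).1 hz
    exact ⟨(y, x), Subtype.ext hxy.symm⟩
  exact ⟨Equiv.ofBijective _ ⟨hinj, hsurj⟩, fun p => rfl⟩

/-- the square of `ω`, and the trace of `ω` is an integer -/
theorem exists_tr2 {R : Subring ℂ} {ω : ℂ} (h : QR R ω) :
    ∃ X Y : ℤ, ω * ω = X + Y * ω ∧ 2 * ω.re = Y := by
  have hω : ω ∈ R := (h.mem ω).2 ⟨0, 1, by simp⟩
  obtain ⟨X, Y, hXY⟩ := (h.mem _).1 (R.mul_mem hω hω)
  refine ⟨X, Y, hXY, ?_⟩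
  have h2 := congrArg Complex.im hXY
  simp only [Complex.mul_im, Complex.add_im, Complex.intCast_im, Complex.intCast_re, zero_mul,
    add_zero, zero_add] at h2
  have h3 : (2 * ω.re - Y) * ω.im = 0 := by linarith
  rcases mul_eq_zero.1 h3 with h4 | h4
  · linarith
  · exact absurd h4 h.im.ne'

/-- the trace of `ω` is an integer -/
theorem exists_tr {R : Subring ℂ} {ω : ℂ} (h : QR R ω) : ∃ Y : ℤ, 2 * ω.re = Y := by
  obtain ⟨_, Y, _, hY⟩ := exists_tr2 h
  exact ⟨Y, hY⟩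

/-- POIS, weight `z ^ n` -/
theorem qpois {R : Subring ℂ} {ω : ℂ} (hR : QR R ω) (n : ℕ) (z0 : ℂ) (t : ℝ) (ht : 0 < t) :
    Summable (fun α : R => ((α : ℂ) + z0) ^ n *
      (Real.exp (-(2 * Real.pi * t * Complex.normSq ((α : ℂ) + z0) / (2 * ω.im))) : ℂ)) ∧
    Summable (fun β : R => ((starRingEnd ℂ) (β : ℂ)) ^ n * ez ω (z0 * (β : ℂ)) *
      (Real.exp (-(2 * Real.pi * Complex.normSq (β : ℂ) / (2 * ω.im * t))) : ℂ)) ∧
    ∑' α : R, ((α : ℂ) + z0) ^ n *
        (Real.exp (-(2 * Real.pi * t * Complex.normSq ((α : ℂ) + z0) / (2 * ω.im))) : ℂ) =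
      (1 / (t : ℂ) ^ (n + 1)) * ∑' β : R, ((starRingEnd ℂ) (β : ℂ)) ^ n * ez ω (z0 * (β : ℂ)) *
        (Real.exp (-(2 * Real.pi * Complex.normSq (β : ℂ) / (2 * ω.im * t))) : ℂ) := by
  have hv := hR.im
  obtain ⟨e, he⟩ := exists_e1 hR
  obtain ⟨Y, hY⟩ := exists_tr hR
  obtain ⟨sF, sH, key⟩ := coefs (wF ω.re ω.im z0.re z0.im t) (zF ω.re ω.im z0.re z0.im t)
    (wH ω.re ω.im z0.re z0.im t) (zH ω.re ω.im) (hypF hv ht) (hypH hv ht) (pois2 hv ht) n
  have hπ : (π : ℂ) ≠ 0 := by exact_mod_cast Real.pi_ne_zero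
  have hv' : (ω.im : ℂ) ≠ 0 := by exact_mod_cast hv.ne'
  have ht' : (t : ℂ) ≠ 0 := by exact_mod_cast ht.ne'
  obtain ⟨A, hA⟩ : ∃ A : ℂ, A = ((-(π * t / ω.im) : ℝ) : ℂ) := ⟨_, rfl⟩
  obtain ⟨B, hB⟩ : ∃ B : ℂ, B = ((-(π / ω.im) : ℝ) : ℂ) := ⟨_, rfl⟩
  have hA0 : A ≠ 0 := by
    rw [hA]
    have : -(π * t / ω.im) ≠ 0 := by
      have : 0 < π * t / ω.im := by positivity
      linarith
    exact_mod_cast this
  have hB0 : B ≠ 0 := by
    rw [hB]
    have : -(π / ω.im) ≠ 0 := by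
      have : 0 < π / ω.im := by positivity
      linarith
    exact_mod_cast this
  have hAB : A = t * B := by
    rw [hA, hB]
    push_cast
    ring
  have eF : ∀ p, (fun α : R => ((α : ℂ) + z0) ^ n *
      (Real.exp (-(2 * Real.pi * t * Complex.normSq ((α : ℂ) + z0) / (2 * ω.im))) : ℂ)) (e p) =
      (1 / A ^ n) * (zF ω.re ω.im z0.re z0.im t p ^ n * wF ω.re ω.im z0.re z0.im t p) := by
    intro p
    have h1 : ((e p : R) : ℂ) + z0 = (((p.2 : ℝ) + p.1 * ω.re + z0.re : ℝ) : ℂ) +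
        (((p.1 : ℝ) * ω.im + z0.im : ℝ) : ℂ) * I := by
      rw [he]
      apply Complex.ext <;> simp
    simp only
    unfold wF zF
    rw [h1, Complex.normSq_add_mul_I, ← hA, mul_pow]
    field_simp
  have eH : ∀ p, (fun β : R => ((starRingEnd ℂ) (β : ℂ)) ^ n * ez ω (z0 * (β : ℂ)) *
      (Real.exp (-(2 * Real.pi * Complex.normSq (β : ℂ) / (2 * ω.im * t))) : ℂ))
      (((shear Y).trans e) p) =
      (t / B ^ n) * (zH ω.re ω.im p ^ n * wH ω.re ω.im z0.re z0.im t p) := by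
    intro p
    have h1 : ((((shear Y).trans e) p : R) : ℂ) = (((p.2 : ℝ) - p.1 * ω.re : ℝ) : ℂ) +
        (((p.1 : ℝ) * ω.im : ℝ) : ℂ) * I := by
      rw [Equiv.trans_apply, he]
      simp only [shear, Equiv.coe_fn_mk]
      apply Complex.ext
      · simp only [Complex.add_re, Complex.mul_re, Complex.intCast_re, Complex.intCast_im,
          Complex.ofReal_re, Complex.ofReal_im, Complex.I_re, Complex.I_im]
        push_cast
        rw [← hY]
        ring
      · simp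
    simp only
    unfold wH zH ez
    rw [h1, Complex.normSq_add_mul_I]
    have h2 : (starRingEnd ℂ) ((((p.2 : ℝ) - p.1 * ω.re : ℝ) : ℂ) +
        (((p.1 : ℝ) * ω.im : ℝ) : ℂ) * I) = (((p.2 : ℝ) - p.1 * ω.re : ℝ) : ℂ) -
        (((p.1 : ℝ) * ω.im : ℝ) : ℂ) * I := by
      rw [map_add, map_mul, Complex.conj_ofReal, Complex.conj_ofReal, Complex.conj_I]
      ring
    have h3 : (z0 * ((((p.2 : ℝ) - p.1 * ω.re : ℝ) : ℂ) +
        (((p.1 : ℝ) * ω.im : ℝ) : ℂ) * I)).im =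
        z0.re * (p.1 * ω.im) + z0.im * (p.2 - p.1 * ω.re) := by
      simp
    rw [h2, h3, ← hB]
    field_simp
    rw [mul_pow]
  refine ⟨?_, ?_, ?_⟩
  · rw [← e.summable_iff]
    exact (sF.mul_left _).congr fun p => (eF p).symm
  · rw [← ((shear Y).trans e).summable_iff]
    exact (sH.mul_left _).congr fun p => (eH p).symm
  · rw [← e.tsum_eq, ← ((shear Y).trans e).tsum_eq (fun β : R => ((starRingEnd ℂ) (β : ℂ)) ^ n *
      ez ω (z0 * (β : ℂ)) *
      (Real.exp (-(2 * Real.pi * Complex.normSq (β : ℂ) / (2 * ω.im * t))) : ℂ))]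
    rw [tsum_congr eF, tsum_congr eH, tsum_mul_left, tsum_mul_left, key, hAB]
    field_simp
    rw [mul_pow]
    ring



/-! ## the additive character -/

theorem ez_add (ω z w : ℂ) : ez ω (z + w) = ez ω z * ez ω w := by
  unfold ez
  rw [← Complex.exp_add]
  congr 1
  rw [Complex.add_im, add_div]
  push_cast
  ring

theorem ez_eq_one_iff {ω z : ℂ} : ez ω z = 1 ↔ ∃ n : ℤ, z.im / ω.im = n := by
  unfold ez
  rw [Complex.exp_eq_one_iff]
  constructor
  · rintro ⟨n, hn⟩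
    refine ⟨n, ?_⟩
    have hpi : (2 * π * I : ℂ) ≠ 0 := by
      simp [Real.pi_ne_zero]
    have h1 : ((z.im / ω.im : ℝ) : ℂ) = (n : ℂ) := by
      apply mul_left_cancel₀ hpi
      rw [hn]
      ring
    exact_mod_cast h1
  · rintro ⟨n, hn⟩
    refine ⟨n, ?_⟩
    rw [hn]
    push_cast
    ring

theorem ez_mem {R : Subring ℂ} {ω : ℂ} (h : QR R ω) {z : ℂ} (hz : z ∈ R) : ez ω z = 1 := by
  rw [ez_eq_one_iff]
  obtain ⟨x, y, rfl⟩ := (h.mem z).1 hz
  refine ⟨y, ?_⟩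
  have := h.im.ne'
  simp only [Complex.add_im, Complex.intCast_im, Complex.mul_im, Complex.intCast_re, zero_mul,
    add_zero, zero_add]
  field_simp

/-- duality -/
theorem mem_of_ez {R : Subring ℂ} {ω : ℂ} (h : QR R ω) {z : ℂ} (h1 : ez ω z = 1)
    (h2 : ez ω (ω * z) = 1) : z ∈ R := by
  obtain ⟨X, Y, hXY, hY⟩ := exists_tr2 h
  have hv := h.im.ne'
  obtain ⟨y, hy⟩ := ez_eq_one_iff.1 h1
  obtain ⟨w, hw⟩ := ez_eq_one_iff.1 h2
  rw [div_eq_iff hv] at hy hw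
  rw [Complex.mul_im, hy] at hw
  have h3 : z.re = w - y * ω.re := by
    have : ω.im * (z.re - (w - y * ω.re)) = 0 := by linear_combination hw
    rcases mul_eq_zero.1 this with h4 | h4
    · exact absurd h4 hv
    · linarith
  refine (h.mem z).2 ⟨w - y * Y, y, ?_⟩
  apply Complex.ext
  · simp only [Complex.add_re, Complex.mul_re, Complex.intCast_re, Complex.intCast_im]
    push_cast
    rw [h3, ← hY]
    ring
  · simp [hy]

end Pool.Agent.W348.HK
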