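import Mathlib
import Pool.Agent.W348.HK.PoisA

/-!
# Poisson summation for ideals of the ring of integers of an imaginary quadratic field: assembly
-/

set_option autoImplicit false
set_option maxHeartbeats 1000000

open Complex Real

namespace Pool.Agent.W348.HK

open Pool.Agent.W192.HK
open Pool.Agent.W192.CM (ez)

/-- the additive group of `M` inside the additive group of `a` -/
abbrev Ng {R : Subring ℂ} (a M : Ideal R) : AddSubgroup (Submodule.toAddSubgroup a) :=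
  (Submodule.toAddSubgroup M).addSubgroupOf (Submodule.toAddSubgroup a)

theorem card_quot {R : Subring ℂ} (a M : Ideal R) (h : M ≤ a) :
    (Nat.card ((Submodule.toAddSubgroup a) ⧸ Ng a M) : ℝ) * nm a = nm M := by
  have h1 : (Submodule.toAddSubgroup M).relIndex (Submodule.toAddSubgroup a) *
      (Submodule.toAddSubgroup a).index = (Submodule.toAddSubgroup M).index :=
    AddSubgroup.relIndex_mul_index (fun x hx => h hx)
  have h2 : (Nat.card ((Submodule.toAddSubgroup a) ⧸ Ng a M)) =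
      (Submodule.toAddSubgroup M).relIndex (Submodule.toAddSubgroup a) := rfl
  have h3 : nm a = ((Submodule.toAddSubgroup a).index : ℝ) := rfl
  have h4 : nm M = ((Submodule.toAddSubgroup M).index : ℝ) := rfl
  rw [h2, h3, h4, ← h1]
  push_cast
  rfl

/-- `a` as a union of cosets of `μ R` -/
theorem exists_E {R : Subring ℂ} (a : Ideal R) (μ : R) (hμ : μ ≠ 0) (h : sp μ ≤ a) :
    ∃ E : ((Submodule.toAddSubgroup a) ⧸ Ng a (sp μ)) × R ≃ (Submodule.toAddSubgroup a),
      ∀ p, ((E p : (Submodule.toAddSubgroup a)) : R) =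
        ((Quotient.out p.1 : (Submodule.toAddSubgroup a)) : R) + μ * p.2 := by
  have hmem : ∀ ρ : R, μ * ρ ∈ sp μ := fun ρ => Ideal.mem_span_singleton'.2 ⟨ρ, mul_comm _ _⟩
  let f : ((Submodule.toAddSubgroup a) ⧸ Ng a (sp μ)) × R → (Submodule.toAddSubgroup a) :=
    fun p => Quotient.out p.1 + ⟨μ * p.2, h (hmem p.2)⟩
  have hN : ∀ ρ : R, (⟨μ * ρ, h (hmem ρ)⟩ : (Submodule.toAddSubgroup a)) ∈ Ng a (sp μ) :=
    fun ρ => hmem ρ
  have hmk : ∀ p, (QuotientAddGroup.mk (f p) : (Submodule.toAddSubgroup a) ⧸ Ng a (sp μ)) = p.1 := by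
    intro p
    show (QuotientAddGroup.mk (Quotient.out p.1 + ⟨μ * p.2, h (hmem p.2)⟩) :
      (Submodule.toAddSubgroup a) ⧸ Ng a (sp μ)) = p.1
    rw [QuotientAddGroup.mk_add_of_mem _ (hN p.2)]
    exact QuotientAddGroup.out_eq' p.1
  have hinj : Function.Injective f := by
    rintro ⟨q, ρ⟩ ⟨q', ρ'⟩ hf
    have h1 : q = q' := by
      have e1 := hmk (q, ρ)
      have e2 := hmk (q', ρ')
      rw [hf] at e1
      exact e1.symm.trans e2
    subst h1
    have h2 : (⟨μ * ρ, h (hmem ρ)⟩ : (Submodule.toAddSubgroup a)) = ⟨μ * ρ', h (hmem ρ')⟩ :=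
      add_left_cancel hf
    have h3 : μ * ρ = μ * ρ' := congrArg Subtype.val h2
    rw [mul_left_cancel₀ hμ h3]
  have hsurj : Function.Surjective f := by
    intro x
    have h1 : -(Quotient.out (QuotientAddGroup.mk x : (Submodule.toAddSubgroup a) ⧸ Ng a (sp μ))) + x ∈
        Ng a (sp μ) := by
      rw [← QuotientAddGroup.eq]
      exact QuotientAddGroup.out_eq' _
    have h2 : ((-(Quotient.out (QuotientAddGroup.mk x : (Submodule.toAddSubgroup a) ⧸ Ng a (sp μ))) + x :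
        (Submodule.toAddSubgroup a)) : R) ∈ sp μ := h1
    obtain ⟨ρ, hρ⟩ := Ideal.mem_span_singleton'.1 h2
    refine ⟨(QuotientAddGroup.mk x, ρ), ?_⟩
    apply Subtype.ext
    show ((Quotient.out (QuotientAddGroup.mk x : (Submodule.toAddSubgroup a) ⧸ Ng a (sp μ)) :
      (Submodule.toAddSubgroup a)) : R) + μ * ρ = x
    rw [mul_comm μ ρ, hρ]
    simp
  exact ⟨Equiv.ofBijective f ⟨hinj, hsurj⟩, fun p => rfl⟩

/-- orthogonality -/
theorem charsum {R : Subring ℂ} {ω : ℂ} (hR : QR R ω) (a g : Ideal R) (μ : R) (hμ : μ ≠ 0)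
    (ha : a ≠ ⊥) (hag : a * g = sp μ) [Fintype ((Submodule.toAddSubgroup a) ⧸ Ng a (sp μ))]
    (β : R) [Decidable (β ∈ g)] :
    ∑ q : (Submodule.toAddSubgroup a) ⧸ Ng a (sp μ),
      ez ω ((((Quotient.out q : (Submodule.toAddSubgroup a)) : R) : ℂ) * (β : ℂ) / (μ : ℂ)) =
      if β ∈ g then (Fintype.card ((Submodule.toAddSubgroup a) ⧸ Ng a (sp μ)) : ℂ) else 0 := by
  have := hR.ded
  have hμ' : (μ : ℂ) ≠ 0 := by
    intro h; exact hμ (Subtype.ext h)
  split_ifs with hβ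
  · rw [Finset.sum_congr rfl (fun q _ => ?_)]
    · rw [Finset.sum_const, Finset.card_univ, nsmul_eq_mul, mul_one]
    · have h1 : ((Quotient.out q : (Submodule.toAddSubgroup a)) : R) * β ∈ sp μ :=
        hag.le (Ideal.mul_mem_mul (Quotient.out q : (Submodule.toAddSubgroup a)).2 hβ)
      obtain ⟨ρ, hρ⟩ := Ideal.mem_span_singleton'.1 h1
      have h2 : (((Quotient.out q : (Submodule.toAddSubgroup a)) : R) : ℂ) * (β : ℂ) / (μ : ℂ) = ρ := by
        rw [div_eq_iff hμ']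
        exact_mod_cast (congrArg Subtype.val hρ).symm
      rw [h2]
      exact ez_mem hR ρ.2
  · -- a point where the character is not one
    have hex : ∃ x : (Submodule.toAddSubgroup a), ez ω (((x : R) : ℂ) * (β : ℂ) / (μ : ℂ)) ≠ 1 := by
      by_contra hcon
      push Not at hcon
      apply hβ
      have hω : ω ∈ R := (hR.mem ω).2 ⟨0, 1, by simp⟩
      have h1 : ∀ x ∈ a, x * β ∈ sp μ := by
        intro x hx
        have e1 := hcon ⟨x, hx⟩
        have e2 := hcon ⟨⟨ω, hω⟩ * x, a.mul_mem_left _ hx⟩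
        have e3 : ((x : ℂ) * (β : ℂ) / (μ : ℂ)) ∈ R := by
          refine mem_of_ez hR e1 ?_
          rw [← e2]
          congr 1
          show ω * ((x : ℂ) * (β : ℂ) / (μ : ℂ)) = (ω * (x : ℂ)) * (β : ℂ) / (μ : ℂ)
          ring
        refine Ideal.mem_span_singleton'.2 ⟨⟨_, e3⟩, ?_⟩
        apply Subtype.ext
        show ((x : ℂ) * (β : ℂ) / (μ : ℂ)) * (μ : ℂ) = (x : ℂ) * (β : ℂ)
        field_simp
      have h2 : a * sp β ≤ a * g := by
        rw [hag, Ideal.mul_le]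
        intro x hx y hy
        obtain ⟨z, hz⟩ := Ideal.mem_span_singleton'.1 hy
        rw [← hz]
        have : x * (z * β) = z * (x * β) := by ring
        rw [this]
        exact (sp μ).mul_mem_left _ (h1 x hx)
      have h3 : sp β ≤ g := by
        have h4 : a * g ∣ a * sp β := Ideal.dvd_iff_le.2 h2
        exact Ideal.dvd_iff_le.1 ((mul_dvd_mul_iff_left ha).1 h4)
      exact h3 (Ideal.mem_span_singleton_self β)
    obtain ⟨x0, hx0⟩ := hex
    obtain ⟨φ, hφ⟩ : ∃ φ : (Submodule.toAddSubgroup a) → ℂ, φ = fun x : (Submodule.toAddSubgroup a) =>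
      ez ω (((x : R) : ℂ) * (β : ℂ) / (μ : ℂ)) := ⟨_, rfl⟩
    have hadd : ∀ x y, φ (x + y) = φ x * φ y := by
      intro x y
      rw [hφ]
      show ez ω ((((x + y : (Submodule.toAddSubgroup a)) : R) : ℂ) * (β : ℂ) / (μ : ℂ)) = _
      rw [← ez_add]
      congr 1
      rw [← add_div, ← add_mul]
      rfl
    have hone : ∀ x ∈ Ng a (sp μ), φ x = 1 := by
      intro x hx
      obtain ⟨ρ, hρ⟩ := Ideal.mem_span_singleton'.1 (show (x : R) ∈ sp μ from hx)
      rw [hφ]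
      show ez ω (((x : R) : ℂ) * (β : ℂ) / (μ : ℂ)) = 1
      have e1 : ((x : R) : ℂ) * (β : ℂ) / (μ : ℂ) = ((ρ * β : R) : ℂ) := by
        rw [← hρ, div_eq_iff hμ']
        show ((ρ : ℂ) * (μ : ℂ)) * (β : ℂ) = ((ρ : ℂ) * (β : ℂ)) * (μ : ℂ)
        ring
      rw [e1]
      exact ez_mem hR (ρ * β : R).2
    have hmk : ∀ x, φ (Quotient.out (QuotientAddGroup.mk x : (Submodule.toAddSubgroup a) ⧸ Ng a (sp μ)))
        = φ x := by
      intro x
      have h1 : -(Quotient.out (QuotientAddGroup.mk x : (Submodule.toAddSubgroup a) ⧸ Ng a (sp μ))) + x ∈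
          Ng a (sp μ) := by
        rw [← QuotientAddGroup.eq]
        exact QuotientAddGroup.out_eq' _
      have h2 := hadd (Quotient.out (QuotientAddGroup.mk x : (Submodule.toAddSubgroup a) ⧸ Ng a (sp μ)))
        (-(Quotient.out (QuotientAddGroup.mk x : (Submodule.toAddSubgroup a) ⧸ Ng a (sp μ))) + x)
      rw [hone _ h1, mul_one, add_neg_cancel_left] at h2
      exact h2.symm
    obtain ⟨S, hS⟩ : ∃ S, S = ∑ q : (Submodule.toAddSubgroup a) ⧸ Ng a (sp μ),
      φ (Quotient.out q) := ⟨_, rfl⟩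
    have hshift : φ x0 * S = S := by
      have e1 : ∀ q : (Submodule.toAddSubgroup a) ⧸ Ng a (sp μ), φ x0 * φ (Quotient.out q) =
          φ (Quotient.out ((QuotientAddGroup.mk x0 : (Submodule.toAddSubgroup a) ⧸ Ng a (sp μ)) + q)) := by
        intro q
        rw [← hadd, ← hmk (x0 + Quotient.out q)]
        congr 2
        rw [QuotientAddGroup.mk_add]
        congr 1
        exact QuotientAddGroup.out_eq' q
      rw [hS, Finset.mul_sum, Finset.sum_congr rfl (fun q _ => e1 q)]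
      exact Fintype.sum_equiv (Equiv.addLeft (QuotientAddGroup.mk x0 :
        (Submodule.toAddSubgroup a) ⧸ Ng a (sp μ))) _ _ (fun q => rfl)
    have hS0 : S = 0 := by
      have h1 : (φ x0 - 1) * S = 0 := by rw [sub_mul, hshift, one_mul, sub_self]
      rcases mul_eq_zero.1 h1 with h2 | h2
      · exfalso
        apply hx0
        rw [hφ] at h2
        exact sub_eq_zero.1 h2
      · exact h2
    rw [hφ] at hS
    rw [← hS]
    exact hS0

/-- representatives of `a / (μ)`, `(μ) = a g` -/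
theorem exists_sys (h1 : H_BASIC) {R : Subring ℂ} {ω : ℂ} (hR : QR R ω) (a g : Ideal R) (μ : R)
    (ha : a ≠ ⊥) (hg : g ≠ ⊥) (hag : a * g = sp μ) :
    μ ≠ 0 ∧ 0 < nm g ∧ ∃ (Q : Type) (_ : Fintype Q) (o : Q → R) (E : Q × R ≃ {α : R // α ∈ a}),
      (∀ p, ((E p : {α : R // α ∈ a}) : R) = o p.1 + μ * p.2) ∧
      ∀ (β : R) [Decidable (β ∈ g)], ∑ q, ez ω ((o q : ℂ) * (β : ℂ) / (μ : ℂ)) =
        if β ∈ g then (nm g : ℂ) else 0 := by
  have := hR.ded
  obtain ⟨b1, b2, b3, b4, b5, b6, b7, b8, b9⟩ := h1 R ω hR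
  have hμ : μ ≠ 0 := by
    rintro rfl
    have h2 : a * g = ⊥ := by rw [hag]; exact Ideal.span_singleton_eq_bot.2 rfl
    rcases Ideal.mul_eq_bot.1 h2 with h3 | h3
    · exact ha h3
    · exact hg h3
  have hle : sp μ ≤ a := by
    have h2 : a * g ≤ a := Ideal.mul_le_left
    rw [hag] at h2
    exact h2
  have hna : 0 < nm a := lt_of_lt_of_le one_pos (b3 a ha)
  have hng : 0 < nm g := lt_of_lt_of_le one_pos (b3 g hg)
  have hcard : (Nat.card ((Submodule.toAddSubgroup a) ⧸ Ng a (sp μ)) : ℝ) = nm g := by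
    have h2 := card_quot a (sp μ) hle
    have h3 : nm (sp μ) = nm a * nm g := by rw [← hag, b4]
    rw [h3, mul_comm] at h2
    exact mul_left_cancel₀ hna.ne' h2
  have hfin : Finite ((Submodule.toAddSubgroup a) ⧸ Ng a (sp μ)) := by
    apply Nat.finite_of_card_ne_zero
    intro h2
    rw [h2, Nat.cast_zero] at hcard
    linarith
  let hft : Fintype ((Submodule.toAddSubgroup a) ⧸ Ng a (sp μ)) := Fintype.ofFinite _
  have hcard2 : (Fintype.card ((Submodule.toAddSubgroup a) ⧸ Ng a (sp μ)) : ℂ) = (nm g : ℂ) := by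
    rw [← hcard, Nat.card_eq_fintype_card]
    push_cast
    rfl
  obtain ⟨E, hE⟩ := exists_E a μ hμ hle
  refine ⟨hμ, hng, (Submodule.toAddSubgroup a) ⧸ Ng a (sp μ), hft,
    fun q => ((Quotient.out q : (Submodule.toAddSubgroup a)) : R), E, hE, ?_⟩
  intro β _
  have h2 := charsum hR a g μ hμ ha hag β
  rw [hcard2] at h2
  exact h2

/-- POIS -/
theorem h_pois (h1 : H_BASIC) : H_POIS := by
  classical
  intro R ω hR n a g μ r t ha hg hag ht
  obtain ⟨hμ, hng, Q, _, o, E, hE, hch⟩ := exists_sys h1 hR a g μ ha hg hag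
  have hv := hR.im
  have hμ' : (μ : ℂ) ≠ 0 := by
    intro h; exact hμ (Subtype.ext h)
  -- the function
  obtain ⟨F, hF⟩ : ∃ F : ℂ → ℂ, F = fun z : ℂ => z ^ n *
    (Real.exp (-(Real.pi * t * Complex.normSq z / ω.im)) : ℂ) := ⟨_, rfl⟩
  obtain ⟨D, hD⟩ : ∃ D : ℂ → R → ℂ, D = fun (z0 : ℂ) (β : R) => ((starRingEnd ℂ) (β : ℂ)) ^ n *
    ez ω (z0 * (β : ℂ)) * (Real.exp (-(Real.pi * Complex.normSq (β : ℂ) / (ω.im * t))) : ℂ) :=
    ⟨_, rfl⟩
  have hq : ∀ z0 : ℂ, Summable (fun α : R => F ((α : ℂ) + z0)) ∧ Summable (D z0) ∧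
      ∑' α : R, F ((α : ℂ) + z0) = (1 / (t : ℂ) ^ (n + 1)) * ∑' β : R, D z0 β := by
    intro z0
    have h2 := qpois hR n z0 t ht
    have e1 : (fun α : R => ((α : ℂ) + z0) ^ n *
        (Real.exp (-(2 * Real.pi * t * Complex.normSq ((α : ℂ) + z0) / (2 * ω.im))) : ℂ)) =
        fun α : R => F ((α : ℂ) + z0) := by
      funext α
      rw [hF]
      have : 2 * Real.pi * t * Complex.normSq ((α : ℂ) + z0) / (2 * ω.im) =
        Real.pi * t * Complex.normSq ((α : ℂ) + z0) / ω.im := by field_simp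
      rw [this]
    have e2 : (fun β : R => ((starRingEnd ℂ) (β : ℂ)) ^ n * ez ω (z0 * (β : ℂ)) *
        (Real.exp (-(2 * Real.pi * Complex.normSq (β : ℂ) / (2 * ω.im * t))) : ℂ)) = D z0 := by
      funext β
      rw [hD]
      have : 2 * Real.pi * Complex.normSq (β : ℂ) / (2 * ω.im * t) =
        Real.pi * Complex.normSq (β : ℂ) / (ω.im * t) := by field_simp
      rw [this]
    rw [e1, e2] at h2
    exact h2
  -- the right side
  have hRt : ∀ α : R, ((((r : ℂ) + (α : ℂ)) / (μ : ℂ)) ^ n *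
      (Real.exp (-(Real.pi * t * Complex.normSq ((r : ℂ) + (α : ℂ)) /
        (ω.im * Complex.normSq (μ : ℂ)))) : ℂ)) = F (((r : ℂ) + (α : ℂ)) / (μ : ℂ)) := by
    intro α
    rw [hF]
    have : Real.pi * t * Complex.normSq (((r : ℂ) + (α : ℂ)) / (μ : ℂ)) / ω.im =
        Real.pi * t * Complex.normSq ((r : ℂ) + (α : ℂ)) / (ω.im * Complex.normSq (μ : ℂ)) := by
      rw [map_div₀]
      have : Complex.normSq (μ : ℂ) ≠ 0 := by
        rw [Ne, Complex.normSq_eq_zero]; exact hμ'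
      field_simp
    simp only
    rw [this]
  -- the summation over `Q × R`
  obtain ⟨P, hP⟩ : ∃ P : Q × R → ℂ, P = fun p : Q × R =>
    F ((p.2 : ℂ) + ((r : ℂ) + (o p.1 : ℂ)) / (μ : ℂ)) := ⟨_, rfl⟩
  have hPE : ∀ p, F (((r : ℂ) + (((E p : {α : R // α ∈ a}) : R) : ℂ)) / (μ : ℂ)) = P p := by
    intro p
    rw [hP, hE]
    simp only
    congr 1
    push_cast
    field_simp
    ring
  have hPs : Summable P := by
    apply Summable.of_norm
    rw [summable_prod_of_nonneg (fun p => norm_nonneg _)]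
    refine ⟨fun q => ?_, Summable.of_finite⟩
    rw [hP]
    exact (hq (((r : ℂ) + (o q : ℂ)) / (μ : ℂ))).1.norm
  have hAs : Summable (fun x : {α : R // α ∈ a} => F (((r : ℂ) + ((x : R) : ℂ)) / (μ : ℂ))) := by
    rw [← E.summable_iff]
    exact hPs.congr (fun p => (hPE p).symm)
  have hR2 : (fun α : R => if α ∈ a then (((r : ℂ) + (α : ℂ)) / (μ : ℂ)) ^ n *
      (Real.exp (-(Real.pi * t * Complex.normSq ((r : ℂ) + (α : ℂ)) /
        (ω.im * Complex.normSq (μ : ℂ)))) : ℂ) else 0) =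
      Set.indicator {α : R | α ∈ a} (fun α : R => F (((r : ℂ) + (α : ℂ)) / (μ : ℂ))) := by
    funext α
    rw [hRt α, Set.indicator_apply]
    rfl
  have hL2 : (fun γ : R => if γ ∈ g then ((starRingEnd ℂ) (γ : ℂ)) ^ n *
      ez ω ((r : ℂ) * (γ : ℂ) / (μ : ℂ)) *
      (Real.exp (-(Real.pi * Complex.normSq (γ : ℂ) / (ω.im * t))) : ℂ) else 0) =
      fun γ : R => (if γ ∈ g then (1 : ℂ) else 0) * D ((r : ℂ) / (μ : ℂ)) γ := by
    funext γ
    rw [hD]
    simp only
    rw [ite_mul, zero_mul, one_mul, mul_div_right_comm]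
  have hsR : Summable (Set.indicator {α : R | α ∈ a}
      (fun α : R => F (((r : ℂ) + (α : ℂ)) / (μ : ℂ)))) := by
    rw [← summable_subtype_iff_indicator]
    exact hAs
  have hsL : Summable (fun γ : R => (if γ ∈ g then (1 : ℂ) else 0) * D ((r : ℂ) / (μ : ℂ)) γ) := by
    have h2 := (hq ((r : ℂ) / (μ : ℂ))).2.1.indicator {γ : R | γ ∈ g}
    refine h2.congr (fun γ => ?_)
    rw [Set.indicator_apply]
    by_cases hγ : γ ∈ g
    · rw [if_pos hγ, if_pos (show γ ∈ {γ : R | γ ∈ g} from hγ), one_mul]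
    · rw [if_neg hγ, if_neg (show ¬ γ ∈ {γ : R | γ ∈ g} from hγ), zero_mul]
  rw [hR2, hL2]
  refine ⟨hsL, hsR, ?_⟩
  -- the main computation
  have k1 : ∑' α : R, Set.indicator {α : R | α ∈ a}
      (fun α : R => F (((r : ℂ) + (α : ℂ)) / (μ : ℂ))) α = ∑' p, P p := by
    rw [← tsum_subtype {α : R | α ∈ a} (fun α : R => F (((r : ℂ) + (α : ℂ)) / (μ : ℂ)))]
    have h2 := E.tsum_eq (fun x : {α : R // α ∈ a} => F (((r : ℂ) + ((x : R) : ℂ)) / (μ : ℂ)))
    rw [tsum_congr hPE] at h2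
    exact h2.symm
  have k2 : ∑' p, P p = (1 / (t : ℂ) ^ (n + 1)) *
      ∑' β : R, ∑ q : Q, D (((r : ℂ) + (o q : ℂ)) / (μ : ℂ)) β := by
    rw [hPs.tsum_prod, tsum_fintype, Summable.tsum_finsetSum (fun q _ => (hq _).2.1), Finset.mul_sum]
    refine Finset.sum_congr rfl (fun q _ => ?_)
    rw [← (hq (((r : ℂ) + (o q : ℂ)) / (μ : ℂ))).2.2, hP]
  have k3 : ∀ β : R, ∑ q : Q, D (((r : ℂ) + (o q : ℂ)) / (μ : ℂ)) β =
      (nm g : ℂ) * ((if β ∈ g then (1 : ℂ) else 0) * D ((r : ℂ) / (μ : ℂ)) β) := by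
    intro β
    have h2 := hch β
    have h3 : ∀ q : Q, D (((r : ℂ) + (o q : ℂ)) / (μ : ℂ)) β =
        ez ω ((o q : ℂ) * (β : ℂ) / (μ : ℂ)) * D ((r : ℂ) / (μ : ℂ)) β := by
      intro q
      rw [hD]
      simp only
      have e1 : ((r : ℂ) + (o q : ℂ)) / (μ : ℂ) * (β : ℂ) = (o q : ℂ) * (β : ℂ) / (μ : ℂ) +
          (r : ℂ) / (μ : ℂ) * (β : ℂ) := by ring
      rw [e1, ez_add]
      ring
    rw [Finset.sum_congr rfl (fun q _ => h3 q), ← Finset.sum_mul, h2]
    split_ifs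
    · ring
    · ring
  rw [k1, k2, tsum_congr k3, tsum_mul_left]
  have ht' : (t : ℂ) ≠ 0 := by exact_mod_cast ht.ne'
  have hg' : (nm g : ℂ) ≠ 0 := by exact_mod_cast hng.ne'
  field_simp

end Pool.Agent.W348.HK
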